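import Pool.Agent.Work.MP_76dc41_al.GLf
import Pool.Agent.Work.MP_76dc41_al.Types

/-!
# The index of a normal subgroup and the average character degree

For every finite group `G` and every normal subgroup `N`,
`|G : N| ≤ k(G/N)^2 acd(G)^3` (no classification of the finite simple groups is used).
Consequently `|G : N| ≤ acd(G)^4` whenever `G/N` has few conjugacy classes, for instance when `G/N`
is a direct product of symmetric and alternating groups of degree at least `31` and of groups
between `PSL_n(q)` and `PGL_n(q)` with `n ≥ 18`.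
-/

set_option autoImplicit false

namespace Pool.Agent.Results.MP_76dc41_al.FewClasses

open Pool.Agent.RadIndex

theorem result (G : Type) [Group G] [Finite G] (N : Subgroup G) [N.Normal] :
    ((Nat.card (G ⧸ N) : ℝ) ≤ (Nat.card (ConjClasses (G ⧸ N)) : ℝ) ^ 2 * acd G ^ 3) ∧
    ∀ (ι : Type) [Fintype ι] (S : ι → Type) [∀ i, Group (S i)] [∀ i, Finite (S i)]
      (m c : ι → ℕ) (U : Subgroup (G ⧸ N)),
      Nonempty (U ≃* ∀ i, Fin (m i) → S i) → U.index ≤ ∏ i, c i ^ m i →
      (∀ i, FewType (S i) (c i) ∨ AltType (S i) (c i) ∨ LinType (S i) (c i)) →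
      (Nat.card (G ⧸ N) : ℝ) ≤ acd G ^ 4 := by
  refine ⟨main G N, ?_⟩
  intro ι _ S _ _ m c U ⟨e⟩ hU h
  refine few_main G N (few_of_pow U S m c e hU fun i => ?_)
  rcases h i with h1 | ⟨n, h1, h2⟩ | ⟨n, F, _, _, ⟨K, f, hK, hf, hZ⟩, h1⟩
  · exact h1
  · have h3 : 2 * (c i ^ 7 * (2 * pn n) ^ 8) ≤ n.factorial := by
      rcases h2 with ⟨h4, h5⟩ | h4
      · rw [h5, one_pow, one_mul]
        exact pn_bound n h4
      · exact h4
    rcases h1 with h1 | h1
    · obtain ⟨e1⟩ := h1
      rw [kcl_congr e1, Nat.card_congr e1.toEquiv]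
      exact sym_bound n (c i) h3
    · obtain ⟨e1⟩ := h1
      rw [kcl_congr e1, Nat.card_congr e1.toEquiv]
      exact alt_bound n (c i) h3
  · have e1 : S i ≃* K ⧸ f.ker := (QuotientGroup.quotientKerEquivOfSurjective f hf).symm
    rw [kcl_congr e1, Nat.card_congr e1.toEquiv]
    refine gl_bound n (c i) F K hK f.ker hZ ?_
    rcases h1 with ⟨h4, h5⟩ | h4
    · rw [h5, one_pow, one_mul]
      refine Nat.pow_le_pow_right Nat.card_pos ?_
      nlinarith
    · exact h4

end Pool.Agent.Results.MP_76dc41_al.FewClasses
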