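import Pool.Agent.Work.MP_76dc41_al.Pf.Final

/-!
# The index of a normal subgroup and the average character degree: perfect factors

If `G / N` is a direct product of groups `PSL_2(q)` with `q ≥ 4`, of perfect groups of `MidType` and
of one group `H` with `k(H)^8 ≤ |H|`, then `|G : N| ≤ acd(G)^4`. No classification of the finite
simple groups is used, and there is no condition on `N` or on the extension.
-/

set_option autoImplicit false

namespace Pool.Agent.Results.MP_76dc41_al.PerfectFactors

open Pool.Agent.RadIndex

theorem result (G : Type) [Group G] [Finite G] (N : Subgroup G) [N.Normal]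
    (ι : Type) [Fintype ι] (S : ι → Type) [∀ i, Group (S i)] [∀ i, Finite (S i)]
    (H : Type) [Group H] [Finite H]
    (hS : ∀ i, MidType (S i) ∨ PSLType (S i))
    (hH : Nat.card (ConjClasses H) ^ 8 ≤ Nat.card H)
    (e : Nonempty (G ⧸ N ≃* (∀ i, S i) × H)) :
    (Nat.card (G ⧸ N) : ℝ) ≤ acd G ^ 4 :=
  perfect_factors G N ι S H hS hH e

end Pool.Agent.Results.MP_76dc41_al.PerfectFactors
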