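import Pool.Agent.Work.MP_76dc41_al.RB.Final

/-!
# The index of the solvable radical is bounded by a function of the average character degree

For every real number `A` there is `B` such that every finite group `G` with `acd(G) ≤ A` satisfies
`|G : sol(G)| ≤ B`. There is no condition on the solvable radical, and no classification of the
finite simple groups is used.
-/

set_option autoImplicit false

namespace Pool.Agent.Results.MP_76dc41_al.RadicalBound

open Pool.Agent.RadIndex Pool.Agent.RB

theorem result (A : ℝ) : ∃ B : ℕ, ∀ (G : Type) [Group G] [Finite G] (R : Subgroup G),
    IsRad R → acd G ≤ A → R.index ≤ B :=
  radical_bound A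

end Pool.Agent.Results.MP_76dc41_al.RadicalBound
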