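import Pool.Agent.Work.MP_76dc41_al.RI.Final

/-!
# The index of the solvable radical and the average character degree

No classification of the finite simple groups is used.
-/

set_option autoImplicit false

namespace Pool.Agent.Results.MP_76dc41_al.RichFactors

open Pool.Agent.RadAlt

theorem result :
    -- the solvable radical `R` exists and `G / R` has no nontrivial solvable normal subgroup
    (∀ (G : Type) [Group G] [Finite G], (∃ R : Subgroup G, IsSolRad R) ∧
      ∀ (R : Subgroup G) [R.Normal], IsSolRad R → TrivRad (G ⧸ R)) ∧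
    -- simple factors `A_n`, `n ≥ 160`, `PSL_n(q)`, `n ≥ 84`, and `PSL_2(q)`, `q ≥ 2^128`,
    -- arbitrary extension and radical
    (∀ (G : Type) [Group G] [Finite G] (N : Subgroup G) [N.Normal], TrivRad (G ⧸ N) →
      (∀ S : Subgroup (G ⧸ N), S.IsSubnormal → IsSimpleGroup S →
        AltOrLin 160 84 S ∨ IsPSL2 (2 ^ 128) S) →
      (Nat.card (G ⧸ N) : ℝ) ≤ acd G ^ 4) ∧
    -- the criterion on the simple factors
    (∀ (G : Type) [Group G] [Finite G] (N : Subgroup G) [N.Normal] (s t r : ℕ),
      TrivRad (G ⧸ N) → 0 < s → s ≤ 2 * t → 8 * r + 2 * t ≤ 3 * s →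
      (∀ S : Subgroup (G ⧸ N), S.IsSubnormal → IsSimpleGroup S →
        LocBound s t r S ∧ (FewCl s r S ∨ ManyChars s t S)) →
      (Nat.card (G ⧸ N) : ℝ) ≤ acd G ^ 4) := by
  refine ⟨?_, ?_, ?_⟩
  · intro G _ _
    exact ⟨Pool.Agent.ACD8.exists_solrad, fun R _ h => Pool.Agent.ACD8.trivRad_quot R h.2.1 h.2.2⟩
  · intro G _ _ N _ hN h
    exact Pool.Agent.RadIndex.RI.rich_families G N hN h
  · intro G _ _ N _ s t r hN hs hst hr h
    exact Pool.Agent.RadIndex.RI.rich_crit s t r hs hst hr G N hN h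

end Pool.Agent.Results.MP_76dc41_al.RichFactors
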